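import Mathlib

/-!
# Iterated identities of solvability type and the words of Adyan

A two-variable word is given by its value map `w : G → G → G` on a group `G`. The words of Adyan are
`w_{n,r}(x, y) = (x^(rn) y^(rn) x^(-rn) y^(-rn))^n`.

`EType` and `SType` are the iterated identities of Engel type and of solvability type of the problem,
and `IndependentE n`, `IndependentS n` the independence of the family `w_{n,r}`, `r` an odd prime.

The iterate `w_{⋆2}` of a word with `w(x, x) = 1` and `w(y, x) = w(x, y)⁻¹` which vanishes at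
commuting pairs is trivial on all quadruples of elements of a set `{g, h}`: so every group satisfies
`w_{n,r}` as an iterated identity of solvability type, and the family is not independent, for no `n`.
-/

set_option autoImplicit false

namespace Pool.Agent.Results.MP_9e15c1_al.SolvabilityType

/-- the word of Adyan `w_{n,r}(x, y) = (x^(rn) y^(rn) x^(-rn) y^(-rn))^n` -/
def adyan (n r : ℕ) {G : Type} [Group G] (x y : G) : G :=
  (x ^ (r * n) * y ^ (r * n) * (x ^ (r * n))⁻¹ * (y ^ (r * n))⁻¹) ^ n

/-- the iterates of Engel type: `circ w x₂ k x₁ = w_{∘k}(x₁, x₂)` for `k ≥ 1` (and `x₁` for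
`k = 0`) -/
def circ {G : Type} (w : G → G → G) (h : G) : ℕ → G → G
  | 0, g => g
  | k + 1, g => w (circ w h k g) h

/-- the iterates of solvability type: `star w k y = w_{⋆k}(y 0, y 1, …, y (2 ^ k - 1))` for `k ≥ 1`
(and `y 0` for `k = 0`) -/
def star {G : Type} (w : G → G → G) : ℕ → (ℕ → G) → G
  | 0, y => y 0
  | k + 1, y => w (star w k y) (star w k fun i => y (2 ^ k + i))

/-- `G` satisfies the word `w` as an iterated identity of Engel type -/
def EType {G : Type} [Group G] (w : G → G → G) : Prop :=
  ∀ g h : G, ∃ N : ℕ, 1 ≤ N ∧ circ w h N g = 1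

/-- `G` satisfies the word `w` as an iterated identity of solvability type -/
def SType {G : Type} [Group G] (w : G → G → G) : Prop :=
  ∀ g h : G, ∃ N : ℕ, 1 ≤ N ∧ ∀ y : ℕ → G, (∀ i < 2 ^ N, y i = g ∨ y i = h) → star w N y = 1

/-- the words `w_{n,r}`, `r` an odd prime, are independent as iterated identities of Engel type -/
def IndependentE (n : ℕ) : Prop :=
  ∀ r : ℕ, r.Prime → Odd r → ∃ (G : Type) (_ : Group G),
    (∀ s : ℕ, s.Prime → Odd s → s ≠ r → EType (adyan n s : G → G → G)) ∧
      ¬ EType (adyan n r : G → G → G)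

/-- the words `w_{n,r}`, `r` an odd prime, are independent as iterated identities of solvability
type -/
def IndependentS (n : ℕ) : Prop :=
  ∀ r : ℕ, r.Prime → Odd r → ∃ (G : Type) (_ : Group G),
    (∀ s : ℕ, s.Prime → Odd s → s ≠ r → SType (adyan n s : G → G → G)) ∧
      ¬ SType (adyan n r : G → G → G)

lemma star_two {G : Type} (w : G → G → G) (y : ℕ → G) :
    star w 2 y = w (w (y 0) (y 1)) (w (y 2) (y 3)) := rfl

/-- every group satisfies a skew-symmetric word vanishing at commuting pairs as an iterated identity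
of solvability type, with `N = 2` -/
lemma sType_of_skew {G : Type} [Group G] (w : G → G → G)
    (hc : ∀ a b : G, a * b = b * a → w a b = 1) (hs : ∀ a b : G, w b a = (w a b)⁻¹) :
    ∀ (g h : G) (y : ℕ → G), (∀ i < 2 ^ 2, y i = g ∨ y i = h) → star w 2 y = 1 := by
  intro g h y hy
  rw [star_two]
  have key : ∀ i j : ℕ, i < 4 → j < 4 → w (y i) (y j) = 1 ∨ w (y i) (y j) = w g h ∨
      w (y i) (y j) = (w g h)⁻¹ := by
    intro i j hi hj
    rcases hy i (by omega) with h1 | h1 <;> rcases hy j (by omega) with h2 | h2 <;> rw [h1, h2]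
    · exact Or.inl (hc _ _ rfl)
    · exact Or.inr (Or.inl rfl)
    · exact Or.inr (Or.inr (hs _ _))
    · exact Or.inl (hc _ _ rfl)
  apply hc
  rcases key 0 1 (by omega) (by omega) with h1 | h1 | h1 <;>
    rcases key 2 3 (by omega) (by omega) with h2 | h2 | h2 <;> rw [h1, h2] <;> simp

/-- **Every group satisfies every word of Adyan as an iterated identity of solvability type, with
`N = 2`; so for no `n` the words `w_{n,r}`, `r` an odd prime, are independent as iterated identities
of solvability type, and the assertion of the question is false.** -/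
theorem result :
    (∀ (G : Type) [Group G] (n r : ℕ) (g h : G) (y : ℕ → G), (∀ i < 2 ^ 2, y i = g ∨ y i = h) →
      star (adyan n r) 2 y = 1) ∧
    (∀ n : ℕ, ¬ IndependentS n) ∧
    ¬ ∃ n₀ : ℕ, ∀ n : ℕ, n₀ ≤ n → Odd n → IndependentE n ∧ IndependentS n := by
  have main : ∀ (G : Type) [Group G] (n r : ℕ) (g h : G) (y : ℕ → G),
      (∀ i < 2 ^ 2, y i = g ∨ y i = h) → star (adyan n r) 2 y = 1 := by
    intro G _ n r g h y hy
    refine sType_of_skew (adyan n r) ?_ ?_ g h y hy
    · intro a b hab
      have h1 : Commute a b := hab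
      have h2 : Commute (a ^ (r * n)) (b ^ (r * n)) := h1.pow_pow _ _
      unfold adyan
      rw [h2.eq]
      simp
    · intro a b
      unfold adyan
      rw [(inv_pow (a ^ (r * n) * b ^ (r * n) * (a ^ (r * n))⁻¹ * (b ^ (r * n))⁻¹) n).symm]
      congr 1
      simp [mul_assoc]
  have hS : ∀ n : ℕ, ¬ IndependentS n := by
    intro n hn
    obtain ⟨G, _, -, hG⟩ := hn 3 (by norm_num) (by decide)
    exact hG fun g h => ⟨2, by norm_num, fun y hy => main G n 3 g h y hy⟩
  refine ⟨main, hS, ?_⟩
  rintro ⟨n₀, h⟩
  exact hS _ (h (2 * n₀ + 1) (by omega) ⟨n₀, rfl⟩).2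

end Pool.Agent.Results.MP_9e15c1_al.SolvabilityType
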